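import Pool.Agent.Helper84.FLP.B3b
import Pool.Agent.Helper36.FLP.Hm

/-!
# FLP-B3: `(∞,n)`-categories in the two forms
-/

open CategoryTheory MonoidalCategory CartesianMonoidalCategory Opposite

set_option autoImplicit false

namespace Helper84FLP

/-- The two notions of `(∞,n)`-category agree. -/
theorem isCat_iff (n : ℕ) : FLP.CatIff n :=
  isCat_iff_of (fun _ X x y => ⟨Pool.Agent.Helper36.FLPHm.exists_hmIso.choose X x y⟩) n

end Helper84FLP
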