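import Pool.Agent.Helper58.FLP.BDef
import Pool.Agent.Helper41.FL2.V4

/-!
# FLP-B3: the Segal and the completeness conditions in the two forms
-/

open CategoryTheory MonoidalCategory CartesianMonoidalCategory Opposite

set_option autoImplicit false

namespace Helper84FLP

open FL (SP MpS HoEq InjFib InjFibration Th Wr)
open FLP

noncomputable section

variable {C : Type} [SmallCategory C]

/-- The two forms of the spine. -/
def spineIso (θ : Wr C) :
    FLP.disc (FLP.spine θ).toFunctor ≅ FL.disc (FL.spine θ).functor where
  hom :=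
    { app := fun η =>
        { app := fun k => ↾ fun (φ : (FLP.spine θ).toFunctor.obj η) =>
            (⟨φ.1, φ.2⟩ : (FL.spine θ).functor.obj η)
          naturality := fun _ _ _ => rfl }
      naturality := fun _ _ _ => rfl }
  inv :=
    { app := fun η =>
        { app := fun k => ↾ fun (φ : (FL.spine θ).functor.obj η) =>
            (⟨φ.1, φ.2⟩ : (FLP.spine θ).toFunctor.obj η)
          naturality := fun _ _ _ => rfl }
      naturality := fun _ _ _ => rfl }
  hom_inv_id := rfl
  inv_hom_id := rfl

lemma spineIso_comm (θ : Wr C) :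
    spineι θ ≫ (Iso.refl (FL.rep θ)).hom = (spineIso θ).hom ≫ FL.sieveIncl (FL.spine θ) := rfl

lemma spineIso_comm' (θ : Wr C) :
    FL.sieveIncl (FL.spine θ) ≫ (Iso.refl (FL.rep θ)).hom = (spineIso θ).symm.hom ≫ spineι θ :=
  rfl

theorem segal_iff {X : SP (Wr C)} : FLP.Segal X ↔ FL.SpLoc X := by
  constructor
  · intro h θ
    exact Helper41FL2.loc_of_arrow_iso' (f := spineι θ) (f' := FL.sieveIncl (FL.spine θ))
      (spineIso θ) (Iso.refl _) (spineIso_comm θ) ((hoEq_pre_iff (spineι θ) X).1 (h θ))
  · intro h θ
    refine (hoEq_pre_iff (spineι θ) X).2 ?_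
    exact Helper41FL2.loc_of_arrow_iso' (f := FL.sieveIncl (FL.spine θ)) (f' := spineι θ)
      (spineIso θ).symm (Iso.refl _) (spineIso_comm' θ) (h θ)

/-- The two forms of the nerve of the free-standing isomorphism. -/
def isoIso (C : Type) [SmallCategory C] : FLP.iso C ≅ FL.disc (FL.isoPsh C) where
  hom :=
    { app := fun θ =>
        { app := fun k => ↾ fun (F : (nerve WalkingIso.{0}).obj (op (SimplexCategory.mk θ.unop.len))) =>
            (fun t => (F.obj t).as.down : Fin (θ.unop.len + 1) → Bool)
          naturality := fun _ _ _ => rfl }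
      naturality := fun _ _ _ => rfl }
  inv :=
    { app := fun θ =>
        { app := fun k => ↾ fun (u : Fin (θ.unop.len + 1) → Bool) =>
            (Codiscrete.equivFun.symm (fun t => ULift.up (u t)) :
              (nerve WalkingIso.{0}).obj (op (SimplexCategory.mk θ.unop.len)))
          naturality := fun _ _ _ => rfl }
      naturality := fun _ _ _ => rfl }
  hom_inv_id := by
    refine NatTrans.ext (funext fun θ => NatTrans.ext (funext fun k =>
      ConcreteCategory.hom_ext _ _ fun
        (F : (nerve WalkingIso.{0}).obj (op (SimplexCategory.mk θ.unop.len))) => ?_))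
    exact Codiscrete.equivFun.symm_apply_apply F
  inv_hom_id := rfl

/-- The two forms of the terminal presheaf. -/
def unitIso (C : Type) [SmallCategory C] : 𝟙_ (SP (Wr C)) ≅ FL.one (Wr C) where
  hom :=
    { app := fun θ =>
        { app := fun k => ↾ fun _ => PUnit.unit
          naturality := fun _ _ _ => rfl }
      naturality := fun _ _ _ => rfl }
  inv := toUnit _
  hom_inv_id := toUnit_unique _ _
  inv_hom_id := by
    refine NatTrans.ext (funext fun θ => NatTrans.ext (funext fun k =>
      ConcreteCategory.hom_ext _ _ fun (x : PUnit) => ?_))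
    rfl

lemma isoIso_comm (C : Type) [SmallCategory C] :
    toUnit (FLP.iso C) ≫ (unitIso C).hom = (isoIso C).hom ≫ FL.isoMap C := by
  refine NatTrans.ext (funext fun θ => NatTrans.ext (funext fun k =>
    ConcreteCategory.hom_ext _ _ fun x => ?_))
  rfl

lemma isoIso_comm' (C : Type) [SmallCategory C] :
    FL.isoMap C ≫ (unitIso C).symm.hom = (isoIso C).symm.hom ≫ toUnit (FLP.iso C) :=
  toUnit_unique _ _

theorem complete_iff {X : SP (Wr C)} : FLP.Complete X ↔ FL.Loc X (FL.isoMap C) := by
  constructor
  · intro h
    exact Helper41FL2.loc_of_arrow_iso' (isoIso C) (unitIso C) (isoIso_comm C)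
      ((hoEq_pre_iff (toUnit (FLP.iso C)) X).1 h)
  · intro h
    refine (hoEq_pre_iff (toUnit (FLP.iso C)) X).2 ?_
    exact Helper41FL2.loc_of_arrow_iso' (isoIso C).symm (unitIso C).symm (isoIso_comm' C) h

end

end Helper84FLP
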