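import Pool.Agent.Helper84.FLP.B3a

/-!
# FLP-B3: `(∞,n)`-categories in the two forms, modulo the comparison of mapping presheaves
-/

open CategoryTheory MonoidalCategory CartesianMonoidalCategory Opposite

set_option autoImplicit false

namespace Helper84FLP

open FL (SP MpS HoEq InjFib InjFibration Th Wr)
open FLP

noncomputable section

/-- Injectively fibrant presheaves are invariant under isomorphism. -/
theorem injFib_of_iso {A : Type} [SmallCategory A] {X Y : SP A} (e : X ≅ Y) (h : InjFib X) :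
    InjFib Y := by
  intro P Q i hi f
  obtain ⟨g, hg⟩ := h i hi (f ≫ e.inv)
  refine ⟨g ≫ e.hom, ?_⟩
  rw [← Category.assoc, hg, Category.assoc, e.inv_hom_id, Category.comp_id]

/-- Isomorphisms are objectwise homotopy equivalences. -/
theorem objHoEq_of_iso {A : Type} [SmallCategory A] {X Y : SP A} (e : X ≅ Y) :
    FL.ObjHoEq e.hom := fun _ => Pool.Agent.Helper88.FL.hoEq_of_isIso _

/-- `(∞,n)`-categories are invariant under isomorphism. -/
theorem isCat_of_iso {n : ℕ} {X Y : SP (Th n)} (e : X ≅ Y) (h : FL.IsCat n X) : FL.IsCat n Y :=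
  (Helper41FL2.isCat_of_objHoEq h.inj (injFib_of_iso e h.inj) (objHoEq_of_iso e)).1 h

/-- Vertices are connected to themselves. -/
theorem cn_refl (B : SSet.{0}) (b : B.obj (op (SimplexCategory.mk 0))) : FL.Cn B b b := by
  have e1 : SimplexCategory.δ (1 : Fin 2) ≫ SimplexCategory.σ (0 : Fin 1) = 𝟙 _ :=
    SimplexCategory.δ_comp_σ_succ (i := (0 : Fin 1))
  have e0 : SimplexCategory.δ (0 : Fin 2) ≫ SimplexCategory.σ (0 : Fin 1) = 𝟙 _ :=
    SimplexCategory.δ_comp_σ_self (i := (0 : Fin 1))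
  refine ⟨B.map (SimplexCategory.σ 0).op b, ?_, ?_⟩
  · rw [← FL.sset_comp, ← op_comp, e1]
    exact FL.sset_id B b
  · rw [← FL.sset_comp, ← op_comp, e0]
    exact FL.sset_id B b

theorem isCat_zero_iff {X : SP (Th 0)} : FL.IsCat 0 X ↔ InjFib X := by
  constructor
  · exact fun h => h.inj
  · exact fun h => ⟨h, (fun θ S hS => nomatch hS), (fun P Q f hf => nomatch hf)⟩

/-- Recursive description of `(∞,n+1)`-categories. -/
theorem isCat_succ_iff {n : ℕ} {X : SP (Th (n + 1))} :
    FL.IsCat (n + 1) X ↔ InjFib X ∧ FL.SpLoc (C := Th n) X ∧ FL.Loc X (FL.isoMap (Th n)) ∧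
      ∀ x y : FL.Vt (C := Th n) X, FL.IsCat n (FL.Hm (C := Th n) X x y) := by
  have hO : ∀ z : FL.Vt (C := Th n) X, ∃ x ∈ (Set.univ : Set (FL.Vt (C := Th n) X)),
      FL.Cn (X.obj (op (FL.ptT (n + 1)))) x z := fun z => ⟨z, Set.mem_univ z, cn_refl _ z⟩
  constructor
  · intro h
    have h0 := h.inj
    obtain ⟨h1, h2⟩ := Helper41FL2.isCat_iff.1 h
    obtain ⟨h3, h4⟩ := (Helper41FL2.sg_succ_iff h0 _ hO).1 h1
    refine ⟨h0, h3, Helper41FL2.cj_zero_iff.1 (h2 0), fun x y => Helper41FL2.isCat_iff.2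
      ⟨h4 x trivial y trivial, fun j => ?_⟩⟩
    exact (Helper41FL2.cj_succ_iff h0 _ hO).1 (h2 (j + 1)) x trivial y trivial
  · rintro ⟨h0, h1, h2, h3⟩
    refine Helper41FL2.isCat_iff.2 ⟨(Helper41FL2.sg_succ_iff h0 _ hO).2
      ⟨h1, fun x _ y _ => (Helper41FL2.isCat_iff.1 (h3 x y)).1⟩, fun j => ?_⟩
    cases j with
    | zero => exact Helper41FL2.cj_zero_iff.2 h2
    | succ j =>
      exact (Helper41FL2.cj_succ_iff h0 _ hO).2 fun x _ y _ =>
        (Helper41FL2.isCat_iff.1 (h3 x y)).2 j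

/-- The two notions of `(∞,n)`-category agree if the two forms of the mapping presheaves are
isomorphic. -/
theorem isCat_iff_of
    (H : ∀ (n : ℕ) (X : SP (Wr (Th n))) (x y : FL.Vt X), Nonempty (FL.Hm X x y ≅ FLP.Hm X x y)) :
    ∀ n : ℕ, FLP.CatIff n
  | 0 => fun X => by
    rw [isCat_zero_iff]
    constructor
    · intro h
      cases h with
      | zero _ inj => exact inj
    · exact fun h => FLP.IsCat.zero X h
  | n + 1 => fun X => by
    rw [isCat_succ_iff]
    constructor
    · intro h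
      cases h with
      | succ _ _ inj segal complete hom =>
        refine ⟨inj, segal_iff.1 segal, complete_iff.1 complete, fun x y => ?_⟩
        obtain ⟨e⟩ := H n X x y
        exact isCat_of_iso e.symm ((isCat_iff_of H n _).1 (hom x y))
    · rintro ⟨h0, h1, h2, h3⟩
      refine FLP.IsCat.succ n X h0 (segal_iff.2 h1) (complete_iff.2 h2) fun x y => ?_
      obtain ⟨e⟩ := H n X x y
      exact (isCat_iff_of H n _).2 (isCat_of_iso e (h3 x y))

end

end Helper84FLP
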